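import Mathlib
import Pool.Agent.Helper415.HaarDefs
import Pool.Agent.Helper415.HA9

/-!
For `2 < p < ∞` the univariate Haar basis `𝓗_p` is an almost greedy basis of `L_p([0,1])` with
respect to the Weak Chebyshev Greedy Algorithm.

Sketch. Let `f₀ = ∑_{I ∈ Λ} c_I H_I + g`, `|Λ| ≤ m`, `‖g‖_p = σ`; let `U_k = ‖f_k‖_p^p`, let `Γ_k` be
the part of `Λ` not picked in the first `k` steps, `S_k = ∑_{Γ_k} |c_I|`, and let `a_k` be the
modulus of the dual coefficient `∫ |f_k|^{p-2} f_k φ_{k+1}` of the element picked. As long as
`U_k^{1/p}` is larger than a constant times `σ`, one has `t U_k / 2 ≤ S_k a_k`, and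
`∑_{Γ_k} |c_I|^p ≤ 2^p U_k` (lower `ℓ_p` estimate for the Haar basis).

One step decreases `U_k` by at least `c a_k² / (B_k + a_k^ρ)`, `ρ = (p-2)/(p-1)`,
`B_k = ∫ |f_k|^{p-2} φ_{k+1}²`. All dual coefficients are at most `a_k / t`, so the averages of
`|f_k|^{p-2} f_k` over dyadic intervals are small. Let `L(x)` be the largest dyadic interval that
contains `x` and contains no picked interval. If `s ≤ k`, the difference `f_s - f_k` is constant on
`L(x)`, and its value there is bounded by the average of `|f_s|^{p-1}` over `L(x)` and by
`a_k |L(x)|^{-1/p'}`. This bounds `B_k` by `b_k + a_k^ρ e_k`, where the sum of all `e_k` is at most a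
constant times the number of steps (a tree estimate), and the sum of the `b_k` over a block of steps
is bounded by Young's inequality. Splitting the steps into blocks on which `U_k` halves, and an
induction over the blocks with the quantity `S_k^{p'} U_k^{1-p'}`, bounds the number of steps by `C m`.
-/

set_option autoImplicit false

open MeasureTheory
open scoped ENNReal

namespace Pool.Agent.Results.MP_c04e18_an.HaarAlmostGreedy

open Pool.Agent.Helper415.TG Pool.Agent.Helper415.HaarD

/-- **Main result.** For `2 < p < ∞` the univariate Haar basis of `L_p([0,1])` is almost greedy with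
respect to the WCGA. -/
theorem result (p : ℝ≥0∞) [Fact (1 ≤ p)] (hp2 : 2 < p) (hptop : p ≠ ⊤) :
    AlmostGreedyBasis normingF (Haar p) :=
  Pool.Agent.Helper415.HA.haar_almost_greedy p hp2 hptop

end Pool.Agent.Results.MP_c04e18_an.HaarAlmostGreedy
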